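import Pool.Agent.Lib.MP_28303a_al.HIG.Iface

/-! # Modules ZCL and INJM -/

set_option autoImplicit false

namespace Pool.Agent.NegK.Hig.H94

open SemidirectProduct

theorem zcl : ZclStatement := by
  intro m c
  constructor
  · rintro ⟨k, hk⟩
    cases k with
    | zero =>
      refine ⟨0, ?_⟩
      simp only [Function.iterate_zero, id_eq] at hk ⊢
      rw [hk]
      unfold Mach.step Mach.res
      refine Prod.ext ?_ ?_
      · exact m.fix_q
      · funext j
        exact m.fix_n j
    | succ k =>
      exact ⟨k, by rw [← Function.iterate_succ_apply]; exact hk⟩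
  · rintro ⟨k, hk⟩
    exact ⟨k + 1, by rw [Function.iterate_succ_apply]; exact hk⟩

theorem freeGroup_map_injective {A B : Type} (g : A → B) (hg : Function.Injective g) :
    Function.Injective (FreeGroup.map g) := by
  rcases isEmpty_or_nonempty A with hA | hA
  · intro x y _
    exact Subsingleton.elim x y
  · intro x y h
    have h1 := congrArg (FreeGroup.map (Function.invFun g)) h
    rw [FreeGroup.map.comp, FreeGroup.map.comp, Function.invFun_comp hg, FreeGroup.map.id,
      FreeGroup.map.id] at h1
    exact h1

variable {S L S' M : Type} [AddCommGroup L] [AddCommGroup M]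

theorem bas_hom_inj (mm : M →+ L) (c : S' → FreeGroup (S × L)) (hm : Function.Injective mm)
    (hc : Function.Injective (FreeGroup.lift fun p : S' × M =>
      shift S L (Multiplicative.ofAdd (mm p.2)) (c p.1))) :
    Function.Injective (Bas.hom mm c) := by
  intro x y h
  have h1 := congrArg (fun z : Bas S L => z.left) h
  have h2 := congrArg (fun z : Bas S L => z.right) h
  refine SemidirectProduct.ext ?_ ?_
  · exact hc h1
  · have h3 : Multiplicative.ofAdd (mm (Multiplicative.toAdd x.right)) =
        Multiplicative.ofAdd (mm (Multiplicative.toAdd y.right)) := h2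
    have h4 := hm (Multiplicative.ofAdd.injective h3)
    exact Multiplicative.toAdd.injective h4

/-- the case where the generators go to generators -/
theorem bas_hom_inj_of (mm : M →+ L) (γ : S' → S × L) (c : S' → FreeGroup (S × L))
    (hcγ : ∀ s, c s = FreeGroup.of (γ s)) (hm : Function.Injective mm)
    (hγ : Function.Injective fun s => (γ s).1) :
    Function.Injective (Bas.hom mm c) := by
  refine bas_hom_inj mm c hm ?_
  have h1 : (FreeGroup.lift fun p : S' × M =>
      shift S L (Multiplicative.ofAdd (mm p.2)) (c p.1)) =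
      FreeGroup.map fun p : S' × M => ((γ p.1).1, (γ p.1).2 + mm p.2) := by
    refine FreeGroup.ext_hom _ _ fun p => ?_
    rw [FreeGroup.lift_apply_of, FreeGroup.map.of, hcγ]
    exact shift_of S L _ _ _
  rw [h1]
  refine freeGroup_map_injective _ ?_
  rintro ⟨s, u⟩ ⟨s', u'⟩ h0
  have h : ((γ s).1, (γ s).2 + mm u) = ((γ s').1, (γ s').2 + mm u') := h0
  have h1' : (γ s).1 = (γ s').1 := (Prod.mk.inj h).1
  have h2 : s = s' := hγ h1'
  subst h2
  have h3 : (γ s).2 + mm u = (γ s).2 + mm u' := (Prod.mk.inj h).2
  have h4 : u = u' := hm (add_left_cancel h3)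
  rw [h4]

theorem mul5_inj (J : Type) : Function.Injective (mul5 J) := by
  intro x y h
  funext j
  have h1 := congrFun h j
  simp only [mul5, AddMonoidHom.coe_mk, ZeroHom.coe_mk] at h1
  omega

theorem mulv_inj {J : Type} (a : J → ℕ) (ha : ∀ j, 0 < a j) :
    Function.Injective (mulv a) := by
  intro x y h
  funext j
  have h1 := congrFun h j
  simp only [mulv, AddMonoidHom.coe_mk, ZeroHom.coe_mk] at h1
  have h2 : (a j : ℤ) ≠ 0 := by have := ha j; omega
  exact mul_left_cancel₀ h2 h1

theorem injm : InjmStatement := by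
  intro m
  refine ⟨?_, ?_, ?_, ?_⟩
  · rintro ⟨q, r⟩
    refine bas_hom_inj_of _ (fun _ => (Sum.inl q, fun j => ((r j).val : ℤ))) _ ?_
      (mul5_inj m.J) ?_
    · intro s; rfl
    · intro s s' _; rfl
  · rintro ⟨q, r⟩
    refine bas_hom_inj_of _ (fun _ => (Sum.inl (m.nxt q r), fun j => (m.be q r j : ℤ))) _ ?_
      (mulv_inj _ (m.al_pos q r)) ?_
    · intro s; rfl
    · intro s s' _; rfl
  · refine bas_hom_inj_of _ (fun s => match s with
      | .inl _ => ((Sum.inl m.qin : m.S), (0 : m.L))
      | .inr (.inl _) => (Sum.inr (Sum.inl ()), 0)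
      | .inr (.inr j) => (Sum.inr (Sum.inr j), 0)) _ ?_ (fun x y h => h) ?_
    · rintro (s | s | s)
      · rfl
      · rfl
      · rfl
    · rintro (s | s | s) (s' | s' | s') h
      · rfl
      · simp at h
      · simp at h
      · simp at h
      · rfl
      · simp at h
      · simp at h
      · simp at h
      · simp only [Sum.inr.injEq] at h
        rw [h]
  · intro a
    refine bas_hom_inj _ _ m.mul_inj ?_
    let Θ : FreeGroup (m.S × m.L) →* FreeGroup (m.S × m.L) :=
      FreeGroup.lift fun p => match p with
        | (Sum.inl q, u) => FreeGroup.of (Sum.inl q, u)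
        | (Sum.inr (Sum.inl _), u) =>
          (shift m.S m.L (Multiplicative.ofAdd u) (m.fc (ev [a])))⁻¹ *
            FreeGroup.of (Sum.inr (Sum.inl ()), u)
        | (Sum.inr (Sum.inr j), u) => FreeGroup.of (Sum.inr (Sum.inr j), u)
    have hΘfix : ∀ (u : m.L) (w : F2), Θ (shift m.S m.L (Multiplicative.ofAdd u) (m.fc w)) =
        shift m.S m.L (Multiplicative.ofAdd u) (m.fc w) := by
      intro u w
      have h0 : (Θ.comp ((shift m.S m.L (Multiplicative.ofAdd u)).toMonoidHom.comp m.fc)) =
          (shift m.S m.L (Multiplicative.ofAdd u)).toMonoidHom.comp m.fc := by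
        refine FreeGroup.ext_hom _ _ fun j => ?_
        simp only [MonoidHom.comp_apply, MulEquiv.coe_toMonoidHom]
        unfold Mach.fc
        rw [FreeGroup.map.of, shift_of]
        simp only [Θ, FreeGroup.lift_apply_of]
      exact DFunLike.congr_fun h0 w
    let g : S3 × m.L → m.S × m.L := fun p => match p with
      | (Sum.inl _, u) => (Sum.inl m.qin, m.kap a + m.mul u)
      | (Sum.inr (Sum.inl _), u) => (Sum.inr (Sum.inl ()), 0 + m.mul u)
      | (Sum.inr (Sum.inr j), u) => (Sum.inr (Sum.inr j), 0 + m.mul u)
    have hg : Function.Injective g := by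
      rintro ⟨s | s | s, u⟩ ⟨s' | s' | s', u'⟩ h
      · have h1 : m.kap a + m.mul u = m.kap a + m.mul u' := congrArg Prod.snd h
        have h2 := m.mul_inj (add_left_cancel h1)
        rw [h2]
      · exact absurd (congrArg Prod.fst h) (by simp [g])
      · exact absurd (congrArg Prod.fst h) (by simp [g])
      · exact absurd (congrArg Prod.fst h) (by simp [g])
      · have h1 : 0 + m.mul u = 0 + m.mul u' := congrArg Prod.snd h
        have h2 := m.mul_inj (add_left_cancel h1)
        rw [h2]
      · exact absurd (congrArg Prod.fst h) (by simp [g])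
      · exact absurd (congrArg Prod.fst h) (by simp [g])
      · exact absurd (congrArg Prod.fst h) (by simp [g])
      · have h1 : 0 + m.mul u = 0 + m.mul u' := congrArg Prod.snd h
        have h2 := m.mul_inj (add_left_cancel h1)
        have h3 : (Sum.inr (Sum.inr s) : m.S) = Sum.inr (Sum.inr s') := congrArg Prod.fst h
        simp only [Sum.inr.injEq] at h3
        rw [h2, h3]
    have hcomp : Θ.comp (FreeGroup.lift fun p : S3 × m.L =>
        shift m.S m.L (Multiplicative.ofAdd (m.mul p.2)) ((fun s : S3 =>
          match s with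
          | .inl _ => m.fq m.qin (m.kap a)
          | .inr (.inl _) => m.fc (ev [a]) * m.fd
          | .inr (.inr j) => FreeGroup.of (.inr (.inr j), 0)) p.1)) = FreeGroup.map g := by
      refine FreeGroup.ext_hom _ _ fun p => ?_
      rw [MonoidHom.comp_apply, FreeGroup.lift_apply_of, FreeGroup.map.of]
      obtain ⟨s | s | s, u⟩ := p
      · show Θ (shift m.S m.L _ (FreeGroup.of _)) = _
        rw [shift_of]
        simp only [Θ, FreeGroup.lift_apply_of, g, toAdd_ofAdd]
      · show Θ (shift m.S m.L _ (m.fc (ev [a]) * FreeGroup.of _)) = _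
        rw [map_mul, map_mul, hΘfix, shift_of]
        simp only [Θ, FreeGroup.lift_apply_of, g, toAdd_ofAdd, zero_add]
        rw [mul_inv_cancel_left]
      · show Θ (shift m.S m.L _ (FreeGroup.of _)) = _
        rw [shift_of]
        simp only [Θ, FreeGroup.lift_apply_of, g, toAdd_ofAdd]
    have hinj := freeGroup_map_injective g hg
    rw [← hcomp] at hinj
    intro x y hxy
    exact hinj (congrArg Θ hxy)

end Pool.Agent.NegK.Hig.H94
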